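import Pool.Agent.H978V.Q.Defs
import Pool.Agent.H978V.Defs
import Pool.Agent.Helper557.Rz.M_act
import Pool.Agent.Helper557.Rz.M_inj
import Pool.Agent.Helper557.Rz.M_tb
import Pool.Agent.H978V.G1

set_option autoImplicit false

open MeasureTheory Set
open scoped Quaternion

namespace Pool.Agent.H978V.Q

open Pool.Agent.Helper557.Rz



lemma tp_int (f : C(S 3, ℝ)) : Integrable (fun x => f x) (sg 3) := by
  have := sg_prob 3 (by norm_num)
  exact f.continuous.integrable_of_hasCompactSupport (HasCompactSupport.of_compactSpace f)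

/-- integration of continuous functions -/
noncomputable def tpI : C(S 3, ℝ) →ₗ[ℝ] ℝ where
  toFun f := ∫ x, f x ∂(sg 3)
  map_add' f g := by
    show ∫ x, (f x + g x) ∂(sg 3) = _
    exact integral_add (tp_int f) (tp_int g)
  map_smul' c f := by
    show ∫ x, (c • f x) ∂(sg 3) = _
    rw [integral_smul]; rfl

lemma tpI_apply (f : C(S 3, ℝ)) : tpI f = ∫ x, f x ∂(sg 3) := rfl

lemma tpI_nonneg (f : C(S 3, ℝ)) : 0 ≤ tpI (f * f) := integral_nonneg fun _ => mul_self_nonneg _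

lemma tpI_mono (f g : C(S 3, ℝ)) (h : ∀ x, f x ≤ g x) : tpI f ≤ tpI g :=
  integral_mono (tp_int f) (tp_int g) h

lemma tpI_cr (g : Iso 3) (f : C(S 3, ℝ)) : tpI (cr g f) = tpI f := by
  have hmp := rot_mp 3 (by norm_num) g
  have h := integral_map (μ := sg 3) (φ := rot g) hmp.measurable.aemeasurable (f := fun x => f x)
    f.continuous.aestronglyMeasurable
  rw [hmp.map_eq] at h
  exact h.symm

lemma tp_cs {ι : Type} (s : Finset ι) (c b : ι → C(S 3, ℝ)) :
    (∑ i ∈ s, tpI (c i * b i)) ^ 2 ≤ (∑ i ∈ s, tpI (c i * c i)) * ∑ i ∈ s, tpI (b i * b i) := by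
  have h : ∀ r : ℝ, 0 ≤ (∑ i ∈ s, tpI (c i * c i)) * (r * r) +
      (-2 * ∑ i ∈ s, tpI (c i * b i)) * r + ∑ i ∈ s, tpI (b i * b i) := by
    intro r
    have e : (∑ i ∈ s, tpI (c i * c i)) * (r * r) + (-2 * ∑ i ∈ s, tpI (c i * b i)) * r +
      ∑ i ∈ s, tpI (b i * b i) = ∑ i ∈ s, tpI ((r • c i - b i) * (r • c i - b i)) := by
      rw [Finset.mul_sum, Finset.sum_mul, Finset.sum_mul, ← Finset.sum_add_distrib,
        ← Finset.sum_add_distrib]
      refine Finset.sum_congr rfl fun i _ => ?_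
      have e2 : (r • c i - b i) * (r • c i - b i) =
          (r * r) • (c i * c i) + (-2 * r) • (c i * b i) + b i * b i := by
        ext x
        simp only [ContinuousMap.mul_apply, ContinuousMap.sub_apply, ContinuousMap.add_apply,
          ContinuousMap.smul_apply, smul_eq_mul]
        ring
      rw [e2, map_add, map_add, map_smul, map_smul, smul_eq_mul, smul_eq_mul]
      ring
    rw [e]
    exact Finset.sum_nonneg fun i _ => tpI_nonneg _
  have := discrim_le_zero h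
  rw [discrim] at this
  nlinarith

lemma tp_sort {τ G J : Type} [Fintype G] [DecidableEq G] [Fintype J] (T : Finset τ) (γ : τ → G)
    (Q : τ → J → C(S 3, ℝ)) (B : G → J → C(S 3, ℝ)) :
    (∑ s ∈ T, ∑ j, tpI (Q s j * B (γ s) j)) ^ 2 ≤
      (∑ s ∈ T, ∑ s' ∈ T, if γ s = γ s' then ∑ j, tpI (Q s j * Q s' j) else 0) *
        (∑ g, ∑ j, tpI (B g j * B g j)) ∧
     0 ≤ (∑ s ∈ T, ∑ s' ∈ T, if γ s = γ s' then ∑ j, tpI (Q s j * Q s' j) else 0) := by
  obtain ⟨c, hc⟩ : ∃ c : G × J → C(S 3, ℝ), ∀ p, c p = ∑ s ∈ T, if γ s = p.1 then Q s p.2 else 0 :=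
    ⟨_, fun _ => rfl⟩
  have e1 : ∑ s ∈ T, ∑ j, tpI (Q s j * B (γ s) j) = ∑ p : G × J, tpI (c p * B p.1 p.2) := by
    have h1 : ∀ p : G × J, tpI (c p * B p.1 p.2) =
        ∑ s ∈ T, if γ s = p.1 then tpI (Q s p.2 * B p.1 p.2) else 0 := by
      intro p
      rw [hc, Finset.sum_mul, map_sum]
      refine Finset.sum_congr rfl fun s _ => ?_
      split_ifs
      · rfl
      · rw [zero_mul, map_zero]
    simp only [h1]
    rw [Finset.sum_comm (s := (Finset.univ : Finset (G × J)))]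
    refine Finset.sum_congr rfl fun s _ => ?_
    rw [Fintype.sum_prod_type_right]
    refine Finset.sum_congr rfl fun j _ => ?_
    rw [Finset.sum_ite_eq]
    simp
  have e2 : (∑ s ∈ T, ∑ s' ∈ T, if γ s = γ s' then ∑ j, tpI (Q s j * Q s' j) else 0) =
      ∑ p : G × J, tpI (c p * c p) := by
    have h1 : ∀ p : G × J, tpI (c p * c p) = ∑ s ∈ T, ∑ s' ∈ T,
        if γ s = p.1 then (if γ s' = p.1 then tpI (Q s p.2 * Q s' p.2) else 0) else 0 := by
      intro p
      rw [hc, Finset.sum_mul, map_sum]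
      refine Finset.sum_congr rfl fun s _ => ?_
      rw [Finset.mul_sum, map_sum]
      refine Finset.sum_congr rfl fun s' _ => ?_
      split_ifs
      · rfl
      · rw [mul_zero, map_zero]
      · rw [zero_mul, map_zero]
      · rw [zero_mul, map_zero]
    simp only [h1]
    rw [Finset.sum_comm (s := (Finset.univ : Finset (G × J)))]
    refine Finset.sum_congr rfl fun s _ => ?_
    rw [Finset.sum_comm (s := (Finset.univ : Finset (G × J)))]
    refine Finset.sum_congr rfl fun s' _ => ?_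
    rw [Fintype.sum_prod_type]
    simp only
    have h2 : ∀ g : G, (∑ j, if γ s = g then (if γ s' = g then tpI (Q s j * Q s' j) else 0) else 0)
        = if γ s = g then (if γ s' = g then ∑ j, tpI (Q s j * Q s' j) else 0) else 0 := by
      intro g
      split_ifs <;> simp
    simp only [h2]
    rw [Finset.sum_ite_eq]
    simp only [Finset.mem_univ, if_true]
    by_cases h : γ s = γ s'
    · rw [if_pos h, if_pos h.symm]
    · rw [if_neg h, if_neg (fun h' => h h'.symm)]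
  refine ⟨?_, ?_⟩
  · rw [e1, e2]
    refine (tp_cs Finset.univ c (fun p => B p.1 p.2)).trans (le_of_eq ?_)
    rw [Fintype.sum_prod_type (fun p : G × J => tpI (B p.1 p.2 * B p.1 p.2))]
  · rw [e2]
    exact Finset.sum_nonneg fun p _ => tpI_nonneg _


section ph

variable {e : ℕ} {t : ZMod e × ZMod e}

lemma tp_Ph_mul (ht : Sq t) (x y : ℍ[ℤ]) : Ph t (x * y) = Ph t x * Ph t y := Ph_mul ht x y

lemma tp_Ph_real (n : ℤ) : Ph t ((n : ℤ) : ℍ[ℤ]) = (n : ZMod e) • (1 : Matrix (Fin 2) (Fin 2) (ZMod e)) :=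
  Ph_int t n

lemma tp_scalar (z : ℍ[ℤ]) (h1 : (z.imI : ZMod e) = 0) (h2 : (z.imJ : ZMod e) = 0)
    (h3 : (z.imK : ZMod e) = 0) :
    Ph t z = (z.re : ZMod e) • (1 : Matrix (Fin 2) (Fin 2) (ZMod e)) := by
  ext i j
  fin_cases i <;> fin_cases j <;> simp [Ph, Pg, h1, h2, h3]

lemma tp_Ph_one : Ph t 1 = 1 := by
  have := tp_Ph_real (t := t) 1
  simpa using this

lemma tp_Ph_al (ht : Sq t) (a : Fin 6) :
    Ph t (al (a + 3)) * Ph t (al a) = (5 : ZMod e) • (1 : Matrix (Fin 2) (Fin 2) (ZMod e)) := by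
  rw [← tp_Ph_mul ht, letter_al5]
  have := tp_Ph_real (t := t) 5
  simpa using this

lemma tp_Ph_det (ht : Sq t) (x : ℍ[ℤ]) :
    (Ph t x).det = ((x.re ^ 2 + x.imI ^ 2 + x.imJ ^ 2 + x.imK ^ 2 : ℤ) : ZMod e) := by
  rw [Ph_det ht, Quaternion.normSq_def']

lemma tp_five (h5 : Nat.Coprime e 5) : IsUnit (5 : ZMod e) := by
  have := (ZMod.unitOfCoprime 5 h5.symm).isUnit
  simpa using this

lemma tp_al_unit (ht : Sq t) (h5 : Nat.Coprime e 5) (a : Fin 6) :
    IsUnit (Ph t (al a)) := by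
  rw [Matrix.isUnit_iff_isUnit_det, tp_Ph_det ht]
  have h : ((al a).re ^ 2 + (al a).imI ^ 2 + (al a).imJ ^ 2 + (al a).imK ^ 2 : ℤ) = 5 := by
    fin_cases a <;> rfl
  rw [h]
  exact_mod_cast tp_five h5

lemma tp_unit (ht : Sq t) (h5 : Nat.Coprime e 5) (w : List (Fin 6)) :
    IsUnit (Ph t (qw w)) := by
  induction w with
  | nil =>
    show IsUnit (Ph t 1)
    rw [tp_Ph_one]
    exact isUnit_one
  | cons a v ih =>
    show IsUnit (Ph t (qw v * al a))
    rw [tp_Ph_mul ht]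
    exact ih.mul (tp_al_unit ht h5 a)

/-- the scaling factors of the letters -/
noncomputable def tpF (e : ℕ) (h5 : Nat.Coprime e 5) (a : Fin 6) : (ZMod e)ˣ :=
  if a < 3 then (ZMod.unitOfCoprime 5 h5.symm)⁻¹ else 1

lemma tpF_mul (h5 : Nat.Coprime e 5) (a : Fin 6) :
    (tpF e h5 (a + 3) : ZMod e) * (tpF e h5 a : ZMod e) * 5 = 1 := by
  have h1 : ((ZMod.unitOfCoprime 5 h5.symm : (ZMod e)ˣ) : ZMod e) = 5 := by simp
  have h2 : tpF e h5 (a + 3) * tpF e h5 a = (ZMod.unitOfCoprime 5 h5.symm)⁻¹ := by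
    unfold tpF
    fin_cases a <;> simp
  rw [← Units.val_mul, h2]
  have h3 := Units.inv_mul (ZMod.unitOfCoprime 5 h5.symm)
  rw [h1] at h3
  exact h3

/-- the scaling factors of the words -/
noncomputable def tpG (e : ℕ) (h5 : Nat.Coprime e 5) : List (Fin 6) → (ZMod e)ˣ
  | [] => 1
  | (a :: v) => tpG e h5 v * tpF e h5 a

lemma tp_eigen (R : ℍ[ℝ]ˣ →* Iso 3) (hR : IsRot R) (h5 : Nat.Coprime e 5) (ht : Sq t)
    (H : Vec e → C(S 3, ℝ)) (hA : AdmF H) (lm : ℝ) (hE : ∀ u, TF R t H u = lm • H u) (l : ℕ)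
    (u : Vec e) :
    ∑ w ∈ RW l, cr (R (uw w)) (H ((Ph t (qw w)).mulVec u)) = lam lm l • H u := by
  ext x
  have h := word_eigen (X := S 3 × Vec e)
    (fun a p => (rot (R (ua a)) p.1, (tpF e h5 a : ZMod e) • (Ph t (al a)).mulVec p.2)) ?_
    (fun w p => (rot (R (uw w)) p.1, (tpG e h5 w : ZMod e) • (Ph t (qw w)).mulVec p.2)) ?_ ?_
    (fun p => H p.2 p.1) lm ?_ l (x, u)
  · simp only [hA.inv] at h
    rw [ContinuousMap.smul_apply, smul_eq_mul, ← h, ContinuousMap.sum_apply]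
    rfl
  · intro a p
    refine Prod.ext ?_ ?_
    · exact ua_inv R hR a p.1
    · show (tpF e h5 (a + 3) : ZMod e) • (Ph t (al (a + 3))).mulVec
        ((tpF e h5 a : ZMod e) • (Ph t (al a)).mulVec p.2) = p.2
      rw [Matrix.mulVec_smul, Matrix.mulVec_mulVec, tp_Ph_al ht, smul_smul, Matrix.smul_mulVec,
        smul_smul, Matrix.one_mulVec, tpF_mul, one_smul]
  · intro p
    refine Prod.ext ?_ ?_
    · show rot (R 1) p.1 = p.1
      rw [map_one, rot_one]
    · show ((1 : (ZMod e)ˣ) : ZMod e) • (Ph t 1).mulVec p.2 = p.2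
      rw [tp_Ph_one, Units.val_one, one_smul, Matrix.one_mulVec]
  · intro a v p
    refine Prod.ext ?_ ?_
    · show rot (R (uw v * ua a)) p.1 = rot (R (uw v)) (rot (R (ua a)) p.1)
      rw [map_mul, rot_mul]
    · show ((tpG e h5 v * tpF e h5 a : (ZMod e)ˣ) : ZMod e) • (Ph t (qw v * al a)).mulVec p.2 =
        (tpG e h5 v : ZMod e) • (Ph t (qw v)).mulVec
          ((tpF e h5 a : ZMod e) • (Ph t (al a)).mulVec p.2)
      rw [Matrix.mulVec_smul, Matrix.mulVec_mulVec, tp_Ph_mul ht, smul_smul, Units.val_mul]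
  · intro p
    have h1 := congrArg (fun f => f p.1) (hE p.2)
    simp only [TF, ContinuousMap.sum_apply, cr_apply, ContinuousMap.smul_apply, smul_eq_mul] at h1
    simp only [hA.inv]
    exact h1

lemma tp_qw_star (l : ℕ) (w : List (Fin 6)) (hw : w ∈ RW l) :
    star (qw w) * qw w = ((5 ^ l : ℤ) : ℍ[ℤ]) := by
  have h := qw_norm l w hw
  rw [Quaternion.self_mul_star] at h
  rw [Quaternion.star_mul_self, h]
  push_cast
  rfl

lemma tp_cond (he : Odd e) (h5 : Nat.Coprime e 5) (ht : Sq t) (l : ℕ)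
    (w w' : List (Fin 6)) (hw' : w' ∈ RW l) :
    ((e : ℤ) ∣ (qw w * star (qw w')).imI ∧ (e : ℤ) ∣ (qw w * star (qw w')).imJ ∧
      (e : ℤ) ∣ (qw w * star (qw w')).imK) ↔
    ∃ β : (ZMod e)ˣ, Ph t (qw w) = (β : ZMod e) • Ph t (qw w') := by
  have h5l : IsUnit ((5 : ZMod e) ^ l) := (tp_five h5).pow l
  have h2u : IsUnit (2 : ZMod e) := by
    have := (ZMod.unitOfCoprime 2 (Nat.coprime_two_left.2 he)).isUnit
    simpa using this
  rw [← ZMod.intCast_zmod_eq_zero_iff_dvd, ← ZMod.intCast_zmod_eq_zero_iff_dvd,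
    ← ZMod.intCast_zmod_eq_zero_iff_dvd]
  constructor
  · rintro ⟨h1, h2, h3⟩
    have h4 : Ph t (qw w * star (qw w')) =
        ((qw w * star (qw w')).re : ZMod e) • (1 : Matrix (Fin 2) (Fin 2) (ZMod e)) :=
      tp_scalar _ h1 h2 h3
    have h6 : Ph t (star (qw w')) * Ph t (qw w') =
        ((5 : ZMod e) ^ l) • (1 : Matrix (Fin 2) (Fin 2) (ZMod e)) := by
      rw [← tp_Ph_mul ht, tp_qw_star l w' hw', tp_Ph_real]
      push_cast
      rfl
    have h7 : ((5 : ZMod e) ^ l) • Ph t (qw w) =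
        ((qw w * star (qw w')).re : ZMod e) • Ph t (qw w') := by
      have h8 : Ph t (qw w) * (Ph t (star (qw w')) * Ph t (qw w')) =
          ((qw w * star (qw w')).re : ZMod e) • Ph t (qw w') := by
        rw [← mul_assoc, ← tp_Ph_mul ht, h4, smul_mul_assoc, one_mul]
      rw [h6, mul_smul_comm, mul_one] at h8
      exact h8
    have h9 : IsUnit ((qw w * star (qw w')).re : ZMod e) := by
      have h10 : IsUnit (((5 : ZMod e) ^ l) • Ph t (qw w)).det := by
        rw [Matrix.det_smul]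
        exact (h5l.pow _).mul ((Matrix.isUnit_iff_isUnit_det _).1 (tp_unit ht h5 w))
      rw [h7, Matrix.det_smul] at h10
      rw [Fintype.card_fin] at h10
      exact (isUnit_pow_iff two_ne_zero).1 (isUnit_of_mul_isUnit_left h10)
    refine ⟨h5l.unit⁻¹ * h9.unit, ?_⟩
    rw [Units.val_mul, mul_smul, IsUnit.unit_spec, ← h7, smul_smul]
    have : ((h5l.unit⁻¹ : (ZMod e)ˣ) : ZMod e) * (5 : ZMod e) ^ l = 1 := by
      have := h5l.unit.inv_mul
      rwa [IsUnit.unit_spec] at this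
    rw [this, one_smul]
  · rintro ⟨β, hβ⟩
    have h6 : Ph t (qw w') * Ph t (star (qw w')) =
        ((5 : ZMod e) ^ l) • (1 : Matrix (Fin 2) (Fin 2) (ZMod e)) := by
      rw [← tp_Ph_mul ht, qw_norm l w' hw']
      have := tp_Ph_real (t := t) (5 ^ l)
      push_cast at this
      exact this
    have h7 : Ph t (qw w * star (qw w')) =
        ((β : ZMod e) * (5 : ZMod e) ^ l) • (1 : Matrix (Fin 2) (Fin 2) (ZMod e)) := by
      rw [tp_Ph_mul ht, hβ, smul_mul_assoc, h6, smul_smul]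
    generalize qw w * star (qw w') = z at h7 ⊢
    have e01 := congrFun (congrFun h7 0) 1
    have e10 := congrFun (congrFun h7 1) 0
    have e00 := congrFun (congrFun h7 0) 0
    have e11 := congrFun (congrFun h7 1) 1
    simp [Ph, Pg] at e01 e10 e00 e11
    have ht' : t.1 * t.1 + t.2 * t.2 = -1 := ht
    refine ⟨?_, ?_, ?_⟩
    · have : 2 * (z.imI : ZMod e) = 0 := by
        linear_combination (-t.1) * (e00 - e11) - t.2 * (e01 + e10) + (2 * (z.imI : ZMod e)) * ht'
      exact h2u.mul_right_eq_zero.1 this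
    · have : 2 * (z.imJ : ZMod e) = 0 := by linear_combination e01 - e10
      exact h2u.mul_right_eq_zero.1 this
    · have : 2 * (z.imK : ZMod e) = 0 := by
        linear_combination t.2 * (e00 - e11) - t.1 * (e01 + e10) + (2 * (z.imK : ZMod e)) * ht'
      exact h2u.mul_right_eq_zero.1 this

end ph


lemma tp_adj (g : Iso 3) (a b : C(S 3, ℝ)) : tpI (a * cr g b) = tpI (cr g⁻¹ a * b) := by
  rw [← tpI_cr g (cr g⁻¹ a * b)]
  congr 1
  ext x
  simp only [ContinuousMap.mul_apply, cr_apply, rot_inv_rot]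

lemma tp_QK {e : ℕ} [NeZero e] (H : Vec e → C(S 3, ℝ)) (J : Type) [Fintype J] (q : J → C(S 3, ℝ))
    (K : S 3 → S 3 → ℝ) (hK : ∀ x y, K x y = ∑ j, q j x * q j y) :
    QK K H = ∑ u, ∑ j, tpI (q j * H u) * tpI (q j * H u) := by
  unfold QK
  refine Finset.sum_congr rfl fun u _ => ?_
  have h1 : ∀ x, ∫ y, K x y * H u x * H u y ∂(sg 3) =
      ∑ j, (q j x * H u x) * tpI (q j * H u) := by
    intro x
    have h2 : ∀ y, K x y * H u x * H u y = ∑ j, (q j x * H u x) * (q j y * H u y) := by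
      intro y
      rw [hK, Finset.sum_mul, Finset.sum_mul]
      exact Finset.sum_congr rfl fun j _ => by ring
    simp only [h2]
    rw [integral_finsetSum]
    · refine Finset.sum_congr rfl fun j _ => ?_
      rw [integral_const_mul]
      rfl
    · intro j _
      exact (tp_int (q j * H u)).const_mul _
  simp only [h1]
  rw [integral_finsetSum]
  · refine Finset.sum_congr rfl fun j _ => ?_
    rw [integral_mul_const]
    rfl
  · intro j _
    exact (tp_int (q j * H u)).mul_const _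

lemma tp_adm {e : ℕ} (H : Vec e → C(S 3, ℝ)) (hA : AdmF H) (L : C(S 3, ℝ) →ₗ[ℝ] ℝ) :
    AdmR (fun u => L (H u)) where
  supp u hu := by rw [hA.supp u hu, map_zero]
  inv a u := by rw [hA.inv a u]

lemma tp_new {e : ℕ} [NeZero e] (H : Vec e → C(S 3, ℝ)) (hN : NewF H) (L : C(S 3, ℝ) →ₗ[ℝ] ℝ) :
    NewR (fun u => L (H u)) := by
  intro c h hc w
  have h1 := congrArg L (hN c h hc w)
  rw [map_sum, map_zero] at h1
  refine Eq.trans (Finset.sum_congr rfl fun u _ => ?_) h1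
  split_ifs
  · rfl
  · rw [map_zero]

/-- evaluation at a point -/
noncomputable def tpE (x : S 3) : C(S 3, ℝ) →ₗ[ℝ] ℝ where
  toFun f := f x
  map_add' _ _ := rfl
  map_smul' _ _ := rfl

/-- multiplication and integration -/
noncomputable def tpM (q : C(S 3, ℝ)) : C(S 3, ℝ) →ₗ[ℝ] ℝ where
  toFun f := tpI (q * f)
  map_add' f g := by rw [mul_add, map_add]
  map_smul' c f := by rw [mul_smul_comm, map_smul]; rfl

lemma tp_scal_inj {e : ℕ} (a b : (ZMod e)ˣ)
    (g : Matrix (Fin 2) (Fin 2) (ZMod e)) (hg : IsUnit g)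
    (h : (a : ZMod e) • g = (b : ZMod e) • g) : a = b := by
  obtain ⟨u, rfl⟩ := hg
  have h1 : ((a : ZMod e) • (u : Matrix (Fin 2) (Fin 2) (ZMod e))) *
      ((u⁻¹ : (Matrix (Fin 2) (Fin 2) (ZMod e))ˣ) : Matrix (Fin 2) (Fin 2) (ZMod e)) =
      ((b : ZMod e) • (u : Matrix (Fin 2) (Fin 2) (ZMod e))) *
      ((u⁻¹ : (Matrix (Fin 2) (Fin 2) (ZMod e))ˣ) : Matrix (Fin 2) (Fin 2) (ZMod e)) := by rw [h]
  rw [smul_mul_assoc, smul_mul_assoc, Units.mul_inv] at h1
  have h2 := congrFun (congrFun h1 0) 0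
  simp only [Matrix.smul_apply, Matrix.one_apply_eq, smul_eq_mul, mul_one] at h2
  exact Units.ext h2

/-- the invertible matrix of a word times a unit -/
noncomputable def tpU {e : ℕ} {t : ZMod e × ZMod e} (h5 : Nat.Coprime e 5) (ht : Sq t)
    (s : (ZMod e)ˣ × List (Fin 6)) : (Matrix (Fin 2) (Fin 2) (ZMod e))ˣ :=
  (IsUnit.smul s.1 (tp_unit ht h5 s.2)).unit

lemma tpU_val {e : ℕ} {t : ZMod e × ZMod e} (h5 : Nat.Coprime e 5) (ht : Sq t)
    (s : (ZMod e)ˣ × List (Fin 6)) :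
    (tpU h5 ht s : Matrix (Fin 2) (Fin 2) (ZMod e)) = (s.1 : ZMod e) • Ph t (qw s.2) := rfl

open Classical in
/-- TARGET -/
theorem trace_prod (R : ℍ[ℝ]ˣ →* Iso 3) (hR : IsRot R) (e : ℕ) [NeZero e] (he : Odd e)
    (h5 : Nat.Coprime e 5) (t : ZMod e × ZMod e) (ht : Sq t) (H : Vec e → C(S 3, ℝ)) (hA : AdmF H)
    (hN : NewF H) (lm : ℝ) (hE : ∀ u, TF R t H u = lm • H u)
    (J : Type) [Fintype J] (q : J → C(S 3, ℝ)) (K : S 3 → S 3 → ℝ)
    (hK : ∀ x y, K x y = ∑ j, q j x * q j y) (l : ℕ) :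
    (lam lm l) ^ 2 * QK K H ≤ (e : ℝ) ^ 2 * (e.divisors.card) *
      (∑ w ∈ RW l, ∑ w' ∈ RW l,
        if ((e : ℤ) ∣ (qw w * star (qw w')).imI ∧ (e : ℤ) ∣ (qw w * star (qw w')).imJ ∧
          (e : ℤ) ∣ (qw w * star (qw w')).imK) then
          ∫ x, K (rot (R (uw w))⁻¹ x) (rot (R (uw w'))⁻¹ x) ∂(sg 3) else 0) * ip H H := by
  set P : ℝ := ∑ w ∈ RW l, ∑ w' ∈ RW l,
        if ((e : ℤ) ∣ (qw w * star (qw w')).imI ∧ (e : ℤ) ∣ (qw w * star (qw w')).imJ ∧
          (e : ℤ) ∣ (qw w * star (qw w')).imK) then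
          ∫ x, K (rot (R (uw w))⁻¹ x) (rot (R (uw w'))⁻¹ x) ∂(sg 3) else 0 with hP
  obtain ⟨hj, hhj⟩ : ∃ hj : J → Vec e → ℝ, ∀ j u, hj j u = tpI (q j * H u) := ⟨_, fun _ _ => rfl⟩
  obtain ⟨Q, hQ⟩ : ∃ Q : List (Fin 6) → J → C(S 3, ℝ), ∀ w j, Q w j = cr (R (uw w))⁻¹ (q j) :=
    ⟨_, fun _ _ => rfl⟩
  obtain ⟨B, hB⟩ : ∃ B : Matrix (Fin 2) (Fin 2) (ZMod e) → J → C(S 3, ℝ),
    ∀ g j, B g j = ∑ u, hj j u • H (g.mulVec u) := ⟨_, fun _ _ => rfl⟩
  have hadm : ∀ j, AdmR (hj j) := fun j => by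
    have h := tp_adm H hA (tpM (q j))
    have e1 : hj j = fun u => tpM (q j) (H u) := by
      funext u
      rw [hhj]
      rfl
    rw [e1]
    exact h
  have hnew : ∀ j, NewR (hj j) := fun j => by
    have h := tp_new H hN (tpM (q j))
    have e1 : hj j = fun u => tpM (q j) (H u) := by
      funext u
      rw [hhj]
      rfl
    rw [e1]
    exact h
  -- the quadratic form
  have hQK : QK K H = ∑ j, ∑ u, hj j u ^ 2 := by
    rw [tp_QK H J q K hK, Finset.sum_comm]
    refine Finset.sum_congr rfl fun j _ => Finset.sum_congr rfl fun u _ => ?_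
    rw [hhj, pow_two]
  have hQK0 : 0 ≤ QK K H := by
    rw [hQK]
    exact Finset.sum_nonneg fun j _ => Finset.sum_nonneg fun u _ => sq_nonneg _
  -- the eigenvalue equation
  have h2 : lam lm l * QK K H = ∑ w ∈ RW l, ∑ j, tpI (Q w j * B (Ph t (qw w)) j) := by
    have h3 : ∀ j u, lam lm l * hj j u = ∑ w ∈ RW l, tpI (Q w j * H ((Ph t (qw w)).mulVec u)) := by
      intro j u
      have h4 := tp_eigen R hR h5 ht H hA lm hE l u
      have h5' : lam lm l * hj j u = tpI (q j * (lam lm l • H u)) := by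
        rw [hhj, mul_smul_comm, map_smul, smul_eq_mul]
      rw [h5', ← h4, Finset.mul_sum, map_sum]
      refine Finset.sum_congr rfl fun w _ => ?_
      rw [tp_adj, hQ]
    rw [hQK, Finset.mul_sum, Finset.sum_comm (s := RW l)]
    refine Finset.sum_congr rfl fun j _ => ?_
    rw [Finset.mul_sum]
    have h6 : ∀ u, lam lm l * hj j u ^ 2 =
        ∑ w ∈ RW l, hj j u * tpI (Q w j * H ((Ph t (qw w)).mulVec u)) := by
      intro u
      rw [← Finset.mul_sum, ← h3 j u]
      ring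
    simp only [h6]
    rw [Finset.sum_comm]
    refine Finset.sum_congr rfl fun w _ => ?_
    rw [hB, Finset.mul_sum, map_sum]
    refine Finset.sum_congr rfl fun u _ => ?_
    rw [mul_smul_comm, map_smul, smul_eq_mul]
  -- invariance of `B`
  have hBinv : ∀ (a : (ZMod e)ˣ) (g : Matrix (Fin 2) (Fin 2) (ZMod e)) (j : J),
      B ((a : ZMod e) • g) j = B g j := by
    intro a g j
    rw [hB, hB]
    refine Finset.sum_congr rfl fun u _ => ?_
    rw [Matrix.smul_mulVec, hA.inv]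
  have hφ : 0 < (Nat.totient e : ℝ) := by
    exact_mod_cast Nat.totient_pos.2 (Nat.pos_of_ne_zero (NeZero.ne e))
  have hcard : (Fintype.card (ZMod e)ˣ : ℝ) = Nat.totient e := by
    rw [ZMod.card_units_eq_totient]
  have hsort := tp_sort ((Finset.univ : Finset (ZMod e)ˣ) ×ˢ RW l) (tpU h5 ht)
    (fun s j => Q s.2 j) (fun g j => B (g : Matrix (Fin 2) (Fin 2) (ZMod e)) j)
  have e1 : ∑ s ∈ (Finset.univ : Finset (ZMod e)ˣ) ×ˢ RW l,
      ∑ j, tpI (Q s.2 j * B (tpU h5 ht s : Matrix (Fin 2) (Fin 2) (ZMod e)) j) =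
      (Nat.totient e : ℝ) * (lam lm l * QK K H) := by
    rw [Finset.sum_product, h2]
    simp only [tpU_val, hBinv]
    rw [Finset.sum_const, Finset.card_univ, nsmul_eq_mul, hcard]
  have e2 : (∑ s ∈ (Finset.univ : Finset (ZMod e)ˣ) ×ˢ RW l,
      ∑ s' ∈ (Finset.univ : Finset (ZMod e)ˣ) ×ˢ RW l,
        if tpU h5 ht s = tpU h5 ht s' then ∑ j, tpI (Q s.2 j * Q s'.2 j) else 0) =
      (Nat.totient e : ℝ) * P := by
    have e3 : ∀ w w', ∑ j, tpI (Q w j * Q w' j) =
        ∫ x, K (rot (R (uw w))⁻¹ x) (rot (R (uw w'))⁻¹ x) ∂(sg 3) := by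
      intro w w'
      simp only [hK]
      rw [integral_finsetSum]
      · refine Finset.sum_congr rfl fun j _ => ?_
        rw [hQ, hQ]
        rfl
      · intro j _
        exact tp_int (cr (R (uw w))⁻¹ (q j) * cr (R (uw w'))⁻¹ (q j))
    simp only [e3]
    rw [Finset.sum_product, Finset.sum_comm, hP, Finset.mul_sum]
    refine Finset.sum_congr rfl fun w hw => ?_
    have e4 : ∀ a : (ZMod e)ˣ, (∑ s' ∈ (Finset.univ : Finset (ZMod e)ˣ) ×ˢ RW l,
        if tpU h5 ht (a, w) = tpU h5 ht s' then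
          ∫ x, K (rot (R (uw w))⁻¹ x) (rot (R (uw s'.2))⁻¹ x) ∂(sg 3) else 0) =
        ∑ w' ∈ RW l, if ((e : ℤ) ∣ (qw w * star (qw w')).imI ∧ (e : ℤ) ∣ (qw w * star (qw w')).imJ ∧
          (e : ℤ) ∣ (qw w * star (qw w')).imK) then
          ∫ x, K (rot (R (uw w))⁻¹ x) (rot (R (uw w'))⁻¹ x) ∂(sg 3) else 0 := by
      intro a
      rw [Finset.sum_product, Finset.sum_comm]
      refine Finset.sum_congr rfl fun w' hw' => ?_
      simp only
      by_cases hc : ((e : ℤ) ∣ (qw w * star (qw w')).imI ∧ (e : ℤ) ∣ (qw w * star (qw w')).imJ ∧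
          (e : ℤ) ∣ (qw w * star (qw w')).imK)
      · rw [if_pos hc]
        obtain ⟨β, hβ⟩ := (tp_cond he h5 ht l w w' hw').1 hc
        have e5 : ∀ a' : (ZMod e)ˣ, (tpU h5 ht (a, w) = tpU h5 ht (a', w')) ↔ a * β = a' := by
          intro a'
          rw [Units.ext_iff, tpU_val, tpU_val]
          simp only
          rw [hβ, smul_smul, ← Units.val_mul]
          constructor
          · exact tp_scal_inj _ _ _ (tp_unit ht h5 w')
          · intro h
            rw [h]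
        simp only [e5]
        rw [Finset.sum_ite_eq]
        simp
      · rw [if_neg hc]
        refine Finset.sum_eq_zero fun a' _ => ?_
        rw [if_neg]
        intro h
        apply hc
        rw [tp_cond he h5 ht l w w' hw']
        refine ⟨a⁻¹ * a', ?_⟩
        have h7 := congrArg (fun g : (Matrix (Fin 2) (Fin 2) (ZMod e))ˣ =>
          (g : Matrix (Fin 2) (Fin 2) (ZMod e))) h
        simp only [tpU_val] at h7
        rw [Units.val_mul, mul_smul, ← h7, smul_smul, Units.inv_mul, one_smul]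
    simp only [e4]
    rw [Finset.sum_const, Finset.card_univ, nsmul_eq_mul, hcard]
  rw [e1, e2] at hsort
  obtain ⟨hs1, hs2⟩ := hsort
  have hP0 : 0 ≤ P := nonneg_of_mul_nonneg_right hs2 hφ
  have hip0 : 0 ≤ ip H H := Finset.sum_nonneg fun u _ => integral_nonneg fun x => mul_self_nonneg _
  have e6 : ∑ g : (Matrix (Fin 2) (Fin 2) (ZMod e))ˣ, ∑ j,
      tpI (B (g : Matrix (Fin 2) (Fin 2) (ZMod e)) j * B (g : Matrix (Fin 2) (Fin 2) (ZMod e)) j) ≤
      (e : ℝ) ^ 2 * (Nat.totient e) * (e.divisors.card) * ip H H * QK K H := by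
    rw [Finset.sum_comm, hQK, Finset.mul_sum]
    refine Finset.sum_le_sum fun j _ => ?_
    rw [← map_sum]
    have e7 : (e : ℝ) ^ 2 * (Nat.totient e) * (e.divisors.card) * ip H H * ∑ u, hj j u ^ 2 =
        tpI (((e : ℝ) ^ 2 * (Nat.totient e) * (e.divisors.card) * ∑ u, hj j u ^ 2) •
          ∑ u, H u * H u) := by
      rw [map_smul, smul_eq_mul, map_sum]
      have : ip H H = ∑ u, tpI (H u * H u) := rfl
      rw [this]
      ring
    rw [e7]
    refine tpI_mono _ _ fun x => ?_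
    rw [ContinuousMap.sum_apply, ContinuousMap.smul_apply, ContinuousMap.sum_apply, smul_eq_mul]
    have e8 := finite_lemma e (fun u => H u x) (hj j) (tp_adm H hA (tpE x)) (hadm j)
      (tp_new H hN (tpE x)) (hnew j)
    refine le_trans (le_of_eq ?_) (e8.trans (le_of_eq ?_))
    · refine Finset.sum_congr rfl fun g _ => ?_
      rw [ContinuousMap.mul_apply, ← pow_two, hB, ContinuousMap.sum_apply]
      congr 1
      refine Finset.sum_congr rfl fun u _ => ?_
      rw [ContinuousMap.smul_apply, smul_eq_mul, mul_comm]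
    · simp only [pow_two, ContinuousMap.mul_apply]
      ring
  have e9 := hs1.trans (mul_le_mul_of_nonneg_left e6 hs2)
  rcases hQK0.eq_or_lt with h0 | h0
  · rw [← h0, mul_zero]
    positivity
  · have e10 : (Nat.totient e : ℝ) ^ 2 * QK K H * ((lam lm l) ^ 2 * QK K H) ≤
        (Nat.totient e : ℝ) ^ 2 * QK K H * ((e : ℝ) ^ 2 * (e.divisors.card) * P * ip H H) := by
      nlinarith [e9]
    exact le_of_mul_le_mul_left e10 (by positivity)

end Pool.Agent.H978V.Q
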