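import Pool.Agent.H978V.Q.Defs
import Pool.Agent.H978V.Defs
import Pool.Agent.Helper557.Rz.M_gap3
import Pool.Agent.H978V.Q.G8a

/-!
# Spectral gap at a fixed level and a fixed degree
-/

set_option autoImplicit false

open MeasureTheory Set
open scoped Quaternion

namespace Pool.Agent.H978V.Q

open Pool.Agent.Helper557.Rz


section SmallGap

variable {e : ℕ}

lemma sg_mul (t : ZMod e × ZMod e) (ht : Sq t) (a : Fin 6) :
    Ph t (al (a + 3)) * Ph t (al a) = (5 : ZMod e) • (1 : Matrix (Fin 2) (Fin 2) (ZMod e)) := by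
  rw [← Ph_mul ht, letter_al5]
  have h := Ph_int t 5
  simpa using h

lemma sg_five (t : ZMod e × ZMod e) (ht : Sq t) (a : Fin 6) (u : Vec e) :
    (Ph t (al (a + 3))).mulVec ((Ph t (al a)).mulVec u) = (5 : ZMod e) • u := by
  rw [Matrix.mulVec_mulVec, sg_mul t ht a, Matrix.smul_mulVec, Matrix.one_mulVec]

/-- five is a unit -/
def sg_u5 (h5 : Nat.Coprime e 5) : (ZMod e)ˣ := ZMod.unitOfCoprime 5 h5.symm

lemma sg_u5_coe (h5 : Nat.Coprime e 5) : ((sg_u5 h5 : (ZMod e)ˣ) : ZMod e) = 5 := by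
  unfold sg_u5
  rw [ZMod.coe_unitOfCoprime]
  norm_num

lemma sg_inj (h5 : Nat.Coprime e 5) (t : ZMod e × ZMod e) (ht : Sq t) (a : Fin 6) :
    Function.Injective (fun u : Vec e => (Ph t (al a)).mulVec u) := by
  intro u w h
  have h1 := congrArg (fun z => (Ph t (al (a + 3))).mulVec z) h
  simp only [sg_five t ht a] at h1
  rw [← sg_u5_coe h5] at h1
  have h2 := congrArg (fun z => (((sg_u5 h5)⁻¹ : (ZMod e)ˣ) : ZMod e) • z) h1
  simp only [smul_smul, Units.inv_mul, one_smul] at h2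
  exact h2

variable [NeZero e]

lemma sg_sum (h5 : Nat.Coprime e 5) (t : ZMod e × ZMod e) (ht : Sq t) (a : Fin 6) (Φ : Vec e → ℝ) :
    ∑ u : Vec e, Φ ((Ph t (al a)).mulVec u) = ∑ u : Vec e, Φ u :=
  Function.Bijective.sum_comp (Finite.injective_iff_bijective.1 (sg_inj h5 t ht a)) Φ

/-- the bilinear form -/
noncomputable def sgB (e : ℕ) [NeZero e] :
    (Vec e → C(S 3, ℝ)) →ₗ[ℝ] (Vec e → C(S 3, ℝ)) →ₗ[ℝ] ℝ :=
  LinearMap.mk₂ ℝ (fun F G => ∑ u : Vec e, II (F u * G u))
    (fun F F' G => by simp only [Pi.add_apply, add_mul, map_add, Finset.sum_add_distrib])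
    (fun c F G => by
      simp only [Pi.smul_apply, smul_mul_assoc, map_smul, smul_eq_mul, Finset.mul_sum])
    (fun F G G' => by simp only [Pi.add_apply, mul_add, map_add, Finset.sum_add_distrib])
    (fun c F G => by
      simp only [Pi.smul_apply, mul_smul_comm, map_smul, smul_eq_mul, Finset.mul_sum])

lemma sgB_apply (F G : Vec e → C(S 3, ℝ)) : sgB e F G = ∑ u : Vec e, II (F u * G u) := rfl

lemma sgB_pos (F : Vec e → C(S 3, ℝ)) (hF : F ≠ 0) : 0 < sgB e F F := by
  rw [sgB_apply]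
  obtain ⟨u, hu⟩ : ∃ u, F u ≠ 0 := by
    by_contra h
    push Not at h
    exact hF (funext h)
  exact Finset.sum_pos' (fun w _ => II_nonneg _) ⟨u, Finset.mem_univ u, II_pos _ hu⟩

/-- the operator -/
noncomputable def sgT (R : ℍ[ℝ]ˣ →* Iso 3) (t : ZMod e × ZMod e) :
    (Vec e → C(S 3, ℝ)) →ₗ[ℝ] (Vec e → C(S 3, ℝ)) where
  toFun F := fun u => ∑ a : Fin 6, crL (R (ua a)) (F ((Ph t (al a)).mulVec u))
  map_add' F G := by
    funext u
    simp only [Pi.add_apply, map_add, Finset.sum_add_distrib]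
  map_smul' c F := by
    funext u
    simp only [Pi.smul_apply, map_smul, Finset.smul_sum, RingHom.id_apply]

lemma sgT_apply (R : ℍ[ℝ]ˣ →* Iso 3) (t : ZMod e × ZMod e) (F : Vec e → C(S 3, ℝ)) (u : Vec e) :
    sgT R t F u = ∑ a : Fin 6, cr (R (ua a)) (F ((Ph t (al a)).mulVec u)) := rfl

lemma sgT_eq (R : ℍ[ℝ]ˣ →* Iso 3) (t : ZMod e × ZMod e) (F : Vec e → C(S 3, ℝ)) :
    sgT R t F = TF R t F := rfl

lemma sg_tot (F : Vec e → C(S 3, ℝ)) : tot F = ∑ u : Vec e, II (F u) := rfl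

lemma sg_tot_T (R : ℍ[ℝ]ˣ →* Iso 3) (h5 : Nat.Coprime e 5) (t : ZMod e × ZMod e) (ht : Sq t)
    (F : Vec e → C(S 3, ℝ)) : tot (sgT R t F) = 6 * tot F := by
  rw [sg_tot, sg_tot]
  simp only [sgT_apply, map_sum, II_rot]
  rw [Finset.sum_comm, Finset.sum_congr rfl (fun a _ => sg_sum h5 t ht a (fun u => II (F u))),
    Finset.sum_const, Finset.card_univ, Fintype.card_fin, nsmul_eq_mul]
  norm_num

lemma sg_uni (t : ZMod e × ZMod e) (a : Fin 6) (u : Vec e) (h : Uni ((Ph t (al a)).mulVec u)) :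
    Uni u := by
  obtain ⟨p, q, hpq⟩ := h
  simp only [Matrix.mulVec, dotProduct, Fin.sum_univ_two] at hpq
  refine ⟨p * Ph t (al a) 0 0 + q * Ph t (al a) 1 0, p * Ph t (al a) 0 1 + q * Ph t (al a) 1 1,
    ?_⟩
  rw [← hpq]
  ring

lemma sg_adm (R : ℍ[ℝ]ˣ →* Iso 3) (t : ZMod e × ZMod e) {F : Vec e → C(S 3, ℝ)} (hF : AdmF F) :
    AdmF (sgT R t F) where
  supp u hu := by
    rw [sgT_apply]
    refine Finset.sum_eq_zero fun a _ => ?_
    rw [hF.supp _ (fun h => hu (sg_uni t a u h))]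
    rfl
  inv b u := by
    rw [sgT_apply, sgT_apply]
    refine Finset.sum_congr rfl fun a _ => ?_
    rw [Matrix.mulVec_smul, hF.inv]

lemma sg_sym (R : ℍ[ℝ]ˣ →* Iso 3) (hR : IsRot R) (h5 : Nat.Coprime e 5) (t : ZMod e × ZMod e)
    (ht : Sq t) {F G : Vec e → C(S 3, ℝ)} (hG : AdmF G) :
    sgB e (sgT R t F) G = sgB e F (sgT R t G) := by
  rw [sgB_apply, sgB_apply]
  simp only [sgT_apply, Finset.sum_mul, Finset.mul_sum, map_sum]
  rw [Finset.sum_comm]
  have h1 : ∀ a : Fin 6, ∑ u : Vec e, II (cr (R (ua a)) (F ((Ph t (al a)).mulVec u)) * G u) =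
      ∑ u : Vec e, II (F u * cr (R (ua (a + 3))) (G ((Ph t (al (a + 3))).mulVec u))) := by
    intro a
    rw [← sg_sum h5 t ht a
      (fun u => II (F u * cr (R (ua (a + 3))) (G ((Ph t (al (a + 3))).mulVec u))))]
    refine Finset.sum_congr rfl fun u _ => ?_
    rw [sg_five t ht a u, ← sg_u5_coe h5, hG.inv,
      ← II_rot (R (ua a)) (F ((Ph t (al a)).mulVec u) * cr (R (ua (a + 3))) (G u))]
    congr 1
    ext x
    show F ((Ph t (al a)).mulVec u) (rot (R (ua a)) x) * G u x =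
      F ((Ph t (al a)).mulVec u) (rot (R (ua a)) x) *
        G u (rot (R (ua (a + 3))) (rot (R (ua a)) x))
    rw [ua_inv R hR a x]
  rw [Finset.sum_congr rfl (fun a _ => h1 a)]
  have h3 := Equiv.sum_comp (Equiv.addRight (3 : Fin 6))
    (fun a => ∑ u : Vec e, II (F u * cr (R (ua a)) (G ((Ph t (al a)).mulVec u))))
  simp only [Equiv.coe_addRight] at h3
  rw [h3, Finset.sum_comm]

lemma sg_key (R : ℍ[ℝ]ˣ →* Iso 3) (h5 : Nat.Coprime e 5) (t : ZMod e × ZMod e) (ht : Sq t)
    (F : Vec e → C(S 3, ℝ)) :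
    ∑ a : Fin 6, ∑ u : Vec e, II ((cr (R (ua a)) (F ((Ph t (al a)).mulVec u)) - F u) *
      (cr (R (ua a)) (F ((Ph t (al a)).mulVec u)) - F u)) =
      12 * sgB e F F - 2 * sgB e (sgT R t F) F := by
  have h1 : ∀ a : Fin 6, ∑ u : Vec e, II ((cr (R (ua a)) (F ((Ph t (al a)).mulVec u)) - F u) *
      (cr (R (ua a)) (F ((Ph t (al a)).mulVec u)) - F u)) =
      2 * sgB e F F - 2 * ∑ u : Vec e, II (cr (R (ua a)) (F ((Ph t (al a)).mulVec u)) * F u) := by
    intro a
    have h2 : ∀ u : Vec e, II ((cr (R (ua a)) (F ((Ph t (al a)).mulVec u)) - F u) *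
        (cr (R (ua a)) (F ((Ph t (al a)).mulVec u)) - F u)) =
        II (F ((Ph t (al a)).mulVec u) * F ((Ph t (al a)).mulVec u)) + II (F u * F u) -
          2 * II (cr (R (ua a)) (F ((Ph t (al a)).mulVec u)) * F u) := by
      intro u
      set f := F ((Ph t (al a)).mulVec u) with hf
      have e1 : (cr (R (ua a)) f - F u) * (cr (R (ua a)) f - F u) =
          cr (R (ua a)) (f * f) + F u * F u - (2 : ℝ) • (cr (R (ua a)) f * F u) := by
        ext x
        show (f (rot (R (ua a)) x) - F u x) * (f (rot (R (ua a)) x) - F u x) =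
          f (rot (R (ua a)) x) * f (rot (R (ua a)) x) + F u x * F u x -
            (2 : ℝ) * (f (rot (R (ua a)) x) * F u x)
        ring
      rw [e1, map_sub, map_add, II_rot, map_smul, smul_eq_mul]
    rw [Finset.sum_congr rfl (fun u _ => h2 u), Finset.sum_sub_distrib, Finset.sum_add_distrib,
      sg_sum h5 t ht a (fun u => II (F u * F u)), ← Finset.mul_sum, sgB_apply]
    ring
  rw [Finset.sum_congr rfl (fun a _ => h1 a), Finset.sum_sub_distrib, Finset.sum_const,
    Finset.card_univ, Fintype.card_fin, nsmul_eq_mul, ← Finset.mul_sum]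
  have h3 : sgB e (sgT R t F) F =
      ∑ a : Fin 6, ∑ u : Vec e, II (cr (R (ua a)) (F ((Ph t (al a)).mulVec u)) * F u) := by
    rw [sgB_apply]
    simp only [sgT_apply, Finset.sum_mul, map_sum]
    rw [Finset.sum_comm]
  rw [h3]
  push_cast
  ring

/-- the space of the families -/
noncomputable def sgV (e : ℕ) [NeZero e] (L : C(S 3, ℝ) →ₗ[ℝ] C(S 3, ℝ)) :
    Submodule ℝ (Vec e → C(S 3, ℝ)) where
  carrier := {H | AdmF H ∧ tot H = 0 ∧ ∀ u, H u ∈ LinearMap.range L}
  add_mem' := by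
    rintro F G ⟨hF1, hF2, hF3⟩ ⟨hG1, hG2, hG3⟩
    refine ⟨⟨fun u hu => ?_, fun b u => ?_⟩, ?_, fun u => ?_⟩
    · rw [Pi.add_apply, hF1.supp u hu, hG1.supp u hu, add_zero]
    · rw [Pi.add_apply, Pi.add_apply, hF1.inv, hG1.inv]
    · rw [sg_tot] at *
      simp only [Pi.add_apply, map_add, Finset.sum_add_distrib]
      rw [hF2, hG2, add_zero]
    · exact Submodule.add_mem _ (hF3 u) (hG3 u)
  zero_mem' := by
    refine ⟨⟨fun u _ => rfl, fun b u => rfl⟩, ?_, fun u => Submodule.zero_mem _⟩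
    rw [sg_tot]
    simp
  smul_mem' := by
    rintro c F ⟨hF1, hF2, hF3⟩
    refine ⟨⟨fun u hu => ?_, fun b u => ?_⟩, ?_, fun u => ?_⟩
    · rw [Pi.smul_apply, hF1.supp u hu, smul_zero]
    · rw [Pi.smul_apply, Pi.smul_apply, hF1.inv]
    · rw [sg_tot] at *
      simp only [Pi.smul_apply, map_smul, smul_eq_mul]
      rw [← Finset.mul_sum, hF2, mul_zero]
    · exact Submodule.smul_mem _ c (hF3 u)

lemma sgV_fd (L : C(S 3, ℝ) →ₗ[ℝ] C(S 3, ℝ)) (hL : FiniteDimensional ℝ (LinearMap.range L)) :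
    FiniteDimensional ℝ (sgV e L) := by
  haveI := hL
  let j : sgV e L →ₗ[ℝ] (Vec e → LinearMap.range L) :=
    { toFun := fun H u => ⟨H.1 u, H.2.2.2 u⟩
      map_add' := fun H K => rfl
      map_smul' := fun c H => rfl }
  refine Module.Finite.of_injective j ?_
  intro H K h
  apply Subtype.ext
  funext u
  exact congrArg Subtype.val (congrFun h u)

end SmallGap

/-- TARGET -/
theorem small_gap (R : ℍ[ℝ]ˣ →* Iso 3) (hR : IsRot R) (e : ℕ) [NeZero e] (he : Odd e)
    (h5 : Nat.Coprime e 5) (t : ZMod e × ZMod e) (ht : Sq t) (N : ℕ) (hN : 1 ≤ N) :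
    ∃ l : ℝ, l < 6 ∧ ∀ H : Vec e → C(S 3, ℝ), AdmF H → tot H = 0 → (∃ u, H u ≠ 0) →
      (∃ G : Vec e → C(S 3, ℝ), ∀ u x, H u x = MN N (G u) x) →
      ∀ lm : ℝ, (∀ u, TF R t H u = lm • H u) → lm ≤ l := by
  obtain ⟨L, hL1, hL2, hL3, -⟩ := MN_facts N hN
  haveI := sgV_fd (e := e) L hL2
  have hmem : ∀ H : Vec e → C(S 3, ℝ), AdmF H → tot H = 0 →
      (∃ G : Vec e → C(S 3, ℝ), ∀ u x, H u x = MN N (G u) x) → H ∈ sgV e L := by
    rintro H h1 h2 ⟨G, hG⟩
    refine ⟨h1, h2, fun u => ⟨G u, ?_⟩⟩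
    ext x
    rw [hL1, hG]
  have hTV : ∀ H ∈ sgV e L, sgT R t H ∈ sgV e L := by
    rintro H ⟨h1, h2, h3⟩
    refine ⟨sg_adm R t h1, by rw [sg_tot_T R h5 t ht, h2, mul_zero], fun u => ?_⟩
    rw [sgT_apply]
    refine Submodule.sum_mem _ fun a _ => ?_
    obtain ⟨g, hg⟩ := h3 ((Ph t (al a)).mulVec u)
    exact ⟨cr (R (ua a)) g, by rw [hL3, hg]⟩
  by_cases hV : sgV e L = ⊥
  · refine ⟨0, by norm_num, fun H h1 h2 h3 h4 => ?_⟩
    exfalso
    have h5' := hmem H h1 h2 h4
    rw [hV, Submodule.mem_bot] at h5'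
    obtain ⟨u, hu⟩ := h3
    rw [h5'] at hu
    exact hu rfl
  · haveI : Nontrivial (sgV e L) := Submodule.nontrivial_iff_ne_bot.mpr hV
    let B : sgV e L →ₗ[ℝ] sgV e L →ₗ[ℝ] ℝ := (sgB e).compl₁₂ (sgV e L).subtype (sgV e L).subtype
    have hB : ∀ f h : sgV e L, B f h = sgB e f.1 h.1 := fun f h => rfl
    obtain ⟨v, hv, l, h1, h2⟩ := top_eig B (fun x y => by
        rw [hB, hB, sgB_apply, sgB_apply]
        exact Finset.sum_congr rfl fun u _ => by rw [mul_comm])
      (fun x hx => by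
        rw [hB]
        apply sgB_pos
        simpa using hx) ((sgT R t).restrict hTV) (fun x y => by
        rw [hB, hB]
        exact sg_sym R hR h5 t ht y.2.1)
    have hvne : v.1 ≠ 0 := by simpa using hv
    have hTv : sgT R t v.1 = l • v.1 := by
      have := congrArg Subtype.val h1
      simpa using this
    have hvp := sgB_pos v.1 hvne
    have hBT : sgB e (sgT R t v.1) v.1 = l * sgB e v.1 v.1 := by
      rw [hTv, map_smul, LinearMap.smul_apply, smul_eq_mul]
    have hkey := sg_key R h5 t ht v.1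
    have hnn : 0 ≤ ∑ a : Fin 6, ∑ u : Vec e,
        II ((cr (R (ua a)) (v.1 ((Ph t (al a)).mulVec u)) - v.1 u) *
          (cr (R (ua a)) (v.1 ((Ph t (al a)).mulVec u)) - v.1 u)) :=
      Finset.sum_nonneg fun a _ => Finset.sum_nonneg fun u _ => II_nonneg _
    have hl6 : l ≤ 6 := by
      rw [hkey, hBT] at hnn
      by_contra hc
      push Not at hc
      nlinarith
    refine ⟨l, lt_of_le_of_ne hl6 ?_, ?_⟩
    · intro hl
      rw [hBT, hl] at hkey
      have h0 : ∑ a : Fin 6, ∑ u : Vec e,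
          II ((cr (R (ua a)) (v.1 ((Ph t (al a)).mulVec u)) - v.1 u) *
            (cr (R (ua a)) (v.1 ((Ph t (al a)).mulVec u)) - v.1 u)) = 0 := by
        rw [hkey]
        ring
      rw [Finset.sum_eq_zero_iff_of_nonneg
        (fun a _ => Finset.sum_nonneg fun u _ => II_nonneg _)] at h0
      have h3 : ∀ (a : Fin 6) (u : Vec e),
          cr (R (ua a)) (v.1 ((Ph t (al a)).mulVec u)) = v.1 u := by
        intro a u
        have h4 := h0 a (Finset.mem_univ a)
        rw [Finset.sum_eq_zero_iff_of_nonneg (fun u _ => II_nonneg _)] at h4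
        by_contra h
        have h6 := II_pos _ (sub_ne_zero.mpr h)
        rw [h4 u (Finset.mem_univ u)] at h6
        exact lt_irrefl _ h6
      obtain ⟨c, hc⟩ := ergodic_prod R hR e he h5 t ht v.1 v.2.1 (fun a u x => by
        have := congrArg (fun F : C(S 3, ℝ) => F x) (h3 a u)
        exact this)
      have hconst : ∀ u : Vec e, Uni u → v.1 u = ContinuousMap.const _ c := by
        intro u hu
        ext x
        exact hc u hu x
      classical
      have htot : tot v.1 = ((Finset.univ.filter fun u : Vec e => Uni u).card : ℝ) * c := by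
        rw [sg_tot, Finset.sum_congr rfl (g := fun u => if Uni u then c else 0) (fun u _ => by
          by_cases hu : Uni u
          · rw [if_pos hu, hconst u hu, II_const]
          · rw [if_neg hu, v.2.1.supp u hu, map_zero])]
        rw [← Finset.sum_filter, Finset.sum_const, nsmul_eq_mul]
      rw [v.2.2.1] at htot
      have hcard : ((Finset.univ.filter fun u : Vec e => Uni u).card : ℝ) ≠ 0 := by
        have h7 : 0 < (Finset.univ.filter fun u : Vec e => Uni u).card := by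
          apply Finset.card_pos.2
          refine ⟨![1, 0], ?_⟩
          rw [Finset.mem_filter]
          refine ⟨Finset.mem_univ _, 1, 0, ?_⟩
          simp
        exact_mod_cast h7.ne'
      have hc0 : c = 0 := by
        rcases mul_eq_zero.1 htot.symm with h | h
        · exact absurd h hcard
        · exact h
      apply hvne
      funext u
      by_cases hu : Uni u
      · rw [hconst u hu, hc0]
        rfl
      · rw [v.2.1.supp u hu]
        rfl
    · intro H g1 g2 g3 g4 lm hlm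
      have hHV := hmem H g1 g2 g4
      have hH0 : H ≠ 0 := by
        rintro rfl
        obtain ⟨u, hu⟩ := g3
        exact hu rfl
      have h4 := h2 ⟨H, hHV⟩
      rw [hB, hB] at h4
      have h6 : sgT R t H = lm • H := funext fun u => hlm u
      change sgB e (sgT R t H) H ≤ l * sgB e H H at h4
      rw [h6, map_smul, LinearMap.smul_apply, smul_eq_mul] at h4
      exact le_of_mul_le_mul_right h4 (sgB_pos H hH0)

end Pool.Agent.H978V.Q
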