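import Pool.Agent.H978V.Q.Defs
import Pool.Agent.H978V.Defs2
import Pool.Agent.Helper557.Rz.M_gap3
import Pool.Agent.H978V.Q.G9

/-!
JOB G10 (owner helper978, MP_06cce2_nt).  Starting files `Helper557/Rz/*`; `H978V/{Ar,Defs,Defs2}.lean` are on origin/main.

Mixing: from the gap to the existence of a short word `w` with large correlation.

PROOF.  `L F = 6 F + TF R t F`.  On admissible families `L` is symmetric for `ip` (change of variables `u ↦ Ph t (al a) u`, `al a * al (a+3) = 5`, unit invariance, `rot_mp`),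
`ip (L F) F ≥ 0` (`ip (TF F) F ≥ -6 ip F F` by Cauchy-Schwarz for each gate), `tot (L F) = 12 tot F`, and `ip (L F) F ≤ (6 + l₁) ip F F` if `tot F = 0`.  For the nonnegative form
`B(F,G) = ip (L F) G` Cauchy-Schwarz gives `ip (LF)(LF) = B(F, LF) ≤ √B(F,F) √B(LF,LF) ≤ √B(F,F) √((6+l₁) ip (LF)(LF))`, so `ip (LF)(LF) ≤ (6+l₁) B(F,F) ≤ (6+l₁)² ip F F` for `tot F = 0`.
Hence `√(ip (L^i F)(L^i F)) ≤ (6+l₁)^i √(ip F F)`.
Let `1_U` be the family `1` on unimodular vectors, `0` elsewhere: `L 1_U = 12 · 1_U`, `ip 1_U 1_U = NU D`.  `F = F₀ + (tot F/NU) 1_U`, `ip F₀ F₀ ≤ ip F F`, same for `G`.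
`ip (L^i F) G = 12^i tot F tot G/NU + ip (L^i F₀) G₀ ≥ 12^i tot F tot G/NU - (6+l₁)^i √(ip F F) √(ip G G) ≥ (1/2) 12^i tot F tot G/NU` under the hypothesis.
On the other hand `L^i F = ∑ over sequences in {id}×6 ∪ {al a}`: by induction on `i`, if `ip (actw R t w F) G ≤ M` for all `w` of length `≤ i` (`M ≥ 0`) then `ip (L^i F) G ≤ 12^i M`
(`L (actw w F) = 6 actw w F + ∑_a actw (..) F`; `actw R t (a :: v)` is `actw` composed with one gate, `qw (a :: v) = qw v * al a`, `uw (a :: v) = uw v * ua a`, `Ph t` multiplicative).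
So some `w` of length `≤ i` has `ip (actw R t w F) G ≥ (1/2) tot F tot G/NU`.  (If `(1/2) tot F tot G/NU = 0` also fine; use the maximum over the finitely many words of length ≤ i, or argue by contradiction with
strict inequalities: if all are `< c` (`c = (1/2) tot F tot G / NU`), then `ip (L^i F) G < 12^i c`.)
-/

set_option autoImplicit false

open MeasureTheory Set
open scoped Quaternion

namespace Pool.Agent.H978V.Q

open Pool.Agent.Helper557.Rz


/-! ### bilinear algebra of `ip` and `tot` -/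

section mixbil

variable {D : ℕ} [NeZero D]

lemma mx_ip (F G : Vec D → C(S 3, ℝ)) : ip F G = ∑ v : Vec D, II (F v * G v) := rfl

lemma mx_tot (F : Vec D → C(S 3, ℝ)) : tot F = ∑ v : Vec D, II (F v) := rfl

lemma mx_ip_comm (F G : Vec D → C(S 3, ℝ)) : ip F G = ip G F := by
  rw [mx_ip, mx_ip]
  exact Finset.sum_congr rfl fun v _ => by rw [mul_comm]

lemma mx_ip_add (F F' G : Vec D → C(S 3, ℝ)) : ip (F + F') G = ip F G + ip F' G := by
  rw [mx_ip, mx_ip, mx_ip, ← Finset.sum_add_distrib]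
  exact Finset.sum_congr rfl fun v _ => by rw [Pi.add_apply, add_mul, map_add]

lemma mx_ip_smul (c : ℝ) (F G : Vec D → C(S 3, ℝ)) : ip (c • F) G = c * ip F G := by
  rw [mx_ip, mx_ip, Finset.mul_sum]
  exact Finset.sum_congr rfl fun v _ => by
    rw [Pi.smul_apply, smul_mul_assoc, map_smul, smul_eq_mul]

lemma mx_ip_add_right (F G G' : Vec D → C(S 3, ℝ)) : ip F (G + G') = ip F G + ip F G' := by
  rw [mx_ip_comm, mx_ip_add, mx_ip_comm G, mx_ip_comm G']

lemma mx_ip_smul_right (c : ℝ) (F G : Vec D → C(S 3, ℝ)) : ip F (c • G) = c * ip F G := by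
  rw [mx_ip_comm, mx_ip_smul, mx_ip_comm]

lemma mx_ip_sub (F F' G : Vec D → C(S 3, ℝ)) : ip (F - F') G = ip F G - ip F' G := by
  have : F - F' = F + (-1 : ℝ) • F' := by
    rw [neg_smul, one_smul, sub_eq_add_neg]
  rw [this, mx_ip_add, mx_ip_smul]
  ring

lemma mx_ip_sub_right (F G G' : Vec D → C(S 3, ℝ)) : ip F (G - G') = ip F G - ip F G' := by
  rw [mx_ip_comm, mx_ip_sub, mx_ip_comm G, mx_ip_comm G']

lemma mx_ip_sum {ι : Type} (s : Finset ι) (F : ι → Vec D → C(S 3, ℝ)) (G : Vec D → C(S 3, ℝ)) :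
    ip (∑ a ∈ s, F a) G = ∑ a ∈ s, ip (F a) G := by
  classical
  induction s using Finset.induction_on with
  | empty =>
    have : (0 : Vec D → C(S 3, ℝ)) = (0 : ℝ) • (0 : Vec D → C(S 3, ℝ)) := by simp
    rw [Finset.sum_empty, Finset.sum_empty, this, mx_ip_smul, zero_mul]
  | insert a s ha ih => rw [Finset.sum_insert ha, Finset.sum_insert ha, mx_ip_add, ih]

lemma mx_ip_nonneg (F : Vec D → C(S 3, ℝ)) : 0 ≤ ip F F := by
  rw [mx_ip]
  exact Finset.sum_nonneg fun v _ => II_nonneg _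

lemma mx_cs (F G : Vec D → C(S 3, ℝ)) : |ip F G| ≤ Real.sqrt (ip F F) * Real.sqrt (ip G G) := by
  rw [← Real.sqrt_mul (mx_ip_nonneg F)]
  apply Real.abs_le_sqrt
  -- discriminant
  have h : ∀ s : ℝ, 0 ≤ ip G G * (s * s) + (2 * ip F G) * s + ip F F := by
    intro s
    have h1 := mx_ip_nonneg (F + s • G)
    rw [mx_ip_add, mx_ip_add_right, mx_ip_add_right, mx_ip_smul, mx_ip_smul, mx_ip_smul_right,
      mx_ip_smul_right, mx_ip_comm G F] at h1
    linarith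
  have h2 := discrim_le_zero h
  unfold discrim at h2
  nlinarith

lemma mx_tot_add (F G : Vec D → C(S 3, ℝ)) : tot (F + G) = tot F + tot G := by
  rw [mx_tot, mx_tot, mx_tot, ← Finset.sum_add_distrib]
  exact Finset.sum_congr rfl fun v _ => by rw [Pi.add_apply, map_add]

lemma mx_tot_smul (c : ℝ) (F : Vec D → C(S 3, ℝ)) : tot (c • F) = c * tot F := by
  rw [mx_tot, mx_tot, Finset.mul_sum]
  exact Finset.sum_congr rfl fun v _ => by rw [Pi.smul_apply, map_smul, smul_eq_mul]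

end mixbil

/-! ### matrices of quaternions -/

section mixmat

variable {D : ℕ}

lemma mx_Ph_mul {t : ZMod D × ZMod D} (ht : Sq t) (x y : ℍ[ℤ]) : Ph t (x * y) = Ph t x * Ph t y :=
  Ph_mul ht x y

lemma mx_Ph_one (t : ZMod D × ZMod D) : Ph t 1 = 1 := by
  have h := Ph_int t 1
  simpa using h

lemma mx_Ph_five (t : ZMod D × ZMod D) : Ph t 5 = (5 : ZMod D) • (1 : Matrix (Fin 2) (Fin 2) (ZMod D)) := by
  have h := Ph_int t 5
  simpa using h

end mixmat

/-! ### gates -/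

section mixgate

variable {D : ℕ} [NeZero D]

/-- one gate, as a linear map -/
noncomputable def mxg (R : ℍ[ℝ]ˣ →* Iso 3) (t : ZMod D × ZMod D) (a : Fin 6) :
    (Vec D → C(S 3, ℝ)) →ₗ[ℝ] (Vec D → C(S 3, ℝ)) where
  toFun F := fun v => cr (R (ua a)) (F ((Ph t (al a)).mulVec v))
  map_add' _ _ := rfl
  map_smul' _ _ := rfl

lemma mxg_apply (R : ℍ[ℝ]ˣ →* Iso 3) (t : ZMod D × ZMod D) (a : Fin 6) (F : Vec D → C(S 3, ℝ)) (v : Vec D) :
    mxg R t a F v = cr (R (ua a)) (F ((Ph t (al a)).mulVec v)) := rfl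

lemma mx_TF (R : ℍ[ℝ]ˣ →* Iso 3) (t : ZMod D × ZMod D) (F : Vec D → C(S 3, ℝ)) :
    TF R t F = ∑ a : Fin 6, mxg R t a F := by
  funext v
  rw [Finset.sum_apply]
  rfl

/-- the unit `5` -/
noncomputable def mx5 (h5 : Nat.Coprime D 5) : (ZMod D)ˣ := ZMod.unitOfCoprime 5 h5.symm

lemma mx5_coe (h5 : Nat.Coprime D 5) : (mx5 h5 : ZMod D) = 5 := by
  unfold mx5
  rw [ZMod.coe_unitOfCoprime]
  norm_num

lemma mx_back {t : ZMod D × ZMod D} (ht : Sq t) (h5 : Nat.Coprime D 5) (a : Fin 6) (v : Vec D) :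
    (Ph t (al (a + 3))).mulVec ((Ph t (al a)).mulVec v) = (mx5 h5 : ZMod D) • v := by
  rw [Matrix.mulVec_mulVec, ← mx_Ph_mul ht, letter_al5, mx_Ph_five, Matrix.smul_mulVec,
    Matrix.one_mulVec, mx5_coe]

lemma mx_bij {t : ZMod D × ZMod D} (ht : Sq t) (h5 : Nat.Coprime D 5) (a : Fin 6) :
    Function.Bijective (fun v : Vec D => (Ph t (al a)).mulVec v) := by
  rw [← Finite.injective_iff_bijective]
  intro v w h
  simp only at h
  have h1 := mx_back ht h5 a v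
  rw [h, mx_back ht h5 a w] at h1
  have h2 : ((mx5 h5)⁻¹ : (ZMod D)ˣ) • ((mx5 h5 : ZMod D) • w) =
      ((mx5 h5)⁻¹ : (ZMod D)ˣ) • ((mx5 h5 : ZMod D) • v) := by rw [h1]
  rw [← Units.smul_def, ← Units.smul_def, inv_smul_smul, inv_smul_smul] at h2
  exact h2.symm

lemma mx_sum {t : ZMod D × ZMod D} (ht : Sq t) (h5 : Nat.Coprime D 5) (a : Fin 6)
    (f : Vec D → ℝ) : ∑ v : Vec D, f ((Ph t (al a)).mulVec v) = ∑ v : Vec D, f v :=
  (mx_bij ht h5 a).sum_comp f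

/-- adjoint of a gate -/
lemma mxg_adj {R : ℍ[ℝ]ˣ →* Iso 3} (hR : IsRot R) {t : ZMod D × ZMod D} (ht : Sq t)
    (h5 : Nat.Coprime D 5) (a : Fin 6) (F G : Vec D → C(S 3, ℝ)) (hG : AdmF G) :
    ip (mxg R t a F) G = ip F (mxg R t (a + 3) G) := by
  rw [mx_ip, mx_ip, ← mx_sum ht h5 a (fun v => II (F v * mxg R t (a + 3) G v))]
  refine Finset.sum_congr rfl fun v _ => ?_
  rw [mxg_apply, mxg_apply, mx_back ht h5, hG.inv]
  rw [← II_rot (R (ua a)) (F _ * cr (R (ua (a + 3))) (G v))]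
  congr 1
  ext x
  show F _ (rot (R (ua a)) x) * G v x =
    F _ (rot (R (ua a)) x) * G v (rot (R (ua (a + 3))) (rot (R (ua a)) x))
  rw [ua_inv R hR a x]

lemma mxg_iso {R : ℍ[ℝ]ˣ →* Iso 3} {t : ZMod D × ZMod D} (ht : Sq t)
    (h5 : Nat.Coprime D 5) (a : Fin 6) (F : Vec D → C(S 3, ℝ)) :
    ip (mxg R t a F) (mxg R t a F) = ip F F := by
  rw [mx_ip, mx_ip, ← mx_sum ht h5 a (fun v => II (F v * F v))]
  refine Finset.sum_congr rfl fun v _ => ?_
  rw [mxg_apply, ← II_rot (R (ua a)) (F _ * F _)]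
  rfl

lemma mxg_tot {R : ℍ[ℝ]ˣ →* Iso 3} {t : ZMod D × ZMod D} (ht : Sq t)
    (h5 : Nat.Coprime D 5) (a : Fin 6) (F : Vec D → C(S 3, ℝ)) :
    tot (mxg R t a F) = tot F := by
  rw [mx_tot, mx_tot, ← mx_sum ht h5 a (fun v => II (F v))]
  refine Finset.sum_congr rfl fun v _ => ?_
  rw [mxg_apply, II_rot]

lemma mx_uni_of {t : ZMod D × ZMod D} (x : ℍ[ℤ]) (v : Vec D) (h : Uni ((Ph t x).mulVec v)) : Uni v := by
  obtain ⟨α, β, h⟩ := h
  simp only [Matrix.mulVec, dotProduct, Fin.sum_univ_two] at h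
  refine ⟨α * Ph t x 0 0 + β * Ph t x 1 0, α * Ph t x 0 1 + β * Ph t x 1 1, ?_⟩
  linear_combination h

lemma mx_uni {t : ZMod D × ZMod D} (ht : Sq t) (h5 : Nat.Coprime D 5) (a : Fin 6) (v : Vec D) :
    Uni ((Ph t (al a)).mulVec v) ↔ Uni v := by
  refine ⟨mx_uni_of _ v, fun h => ?_⟩
  apply mx_uni_of (t := t) (al (a + 3))
  rw [mx_back ht h5]
  obtain ⟨α, β, h⟩ := h
  refine ⟨α * ((mx5 h5)⁻¹ : (ZMod D)ˣ), β * ((mx5 h5)⁻¹ : (ZMod D)ˣ), ?_⟩
  have h1 : (((mx5 h5)⁻¹ : (ZMod D)ˣ) : ZMod D) * (mx5 h5 : ZMod D) = 1 := Units.inv_mul _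
  simp only [Pi.smul_apply, smul_eq_mul]
  linear_combination (α * v 0 + β * v 1) * h1 + h

lemma mxg_adm {R : ℍ[ℝ]ˣ →* Iso 3} {t : ZMod D × ZMod D} (a : Fin 6) {F : Vec D → C(S 3, ℝ)} (hF : AdmF F) :
    AdmF (mxg R t a F) where
  supp := by
    intro v hv
    rw [mxg_apply, hF.supp _ (fun h => hv (mx_uni_of _ v h))]
    rfl
  inv := by
    intro c v
    rw [mxg_apply, mxg_apply, Matrix.mulVec_smul, hF.inv]

lemma mx_adm_add {F G : Vec D → C(S 3, ℝ)} (hF : AdmF F) (hG : AdmF G) : AdmF (F + G) where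
  supp := by
    intro v hv
    rw [Pi.add_apply, hF.supp v hv, hG.supp v hv, add_zero]
  inv := by
    intro c v
    rw [Pi.add_apply, Pi.add_apply, hF.inv, hG.inv]

lemma mx_adm_smul (c : ℝ) {F : Vec D → C(S 3, ℝ)} (hF : AdmF F) : AdmF (c • F) where
  supp := by
    intro v hv
    rw [Pi.smul_apply, hF.supp v hv, smul_zero]
  inv := by
    intro b v
    rw [Pi.smul_apply, Pi.smul_apply, hF.inv]

lemma mx_adm_zero : AdmF (0 : Vec D → C(S 3, ℝ)) where
  supp := fun _ _ => rfl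
  inv := fun _ _ => rfl

lemma mx_adm_sum {ι : Type} (s : Finset ι) (F : ι → Vec D → C(S 3, ℝ)) (h : ∀ a ∈ s, AdmF (F a)) :
    AdmF (∑ a ∈ s, F a) := by
  classical
  induction s using Finset.induction_on with
  | empty => exact mx_adm_zero
  | insert a s ha ih =>
    rw [Finset.sum_insert ha]
    exact mx_adm_add (h a (Finset.mem_insert_self _ _)) (ih fun b hb => h b (Finset.mem_insert_of_mem hb))

/-- the operator `6 + T` -/
noncomputable def mxL (R : ℍ[ℝ]ˣ →* Iso 3) (t : ZMod D × ZMod D) :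
    (Vec D → C(S 3, ℝ)) →ₗ[ℝ] (Vec D → C(S 3, ℝ)) :=
  (6 : ℝ) • LinearMap.id + ∑ a : Fin 6, mxg R t a

lemma mxL_apply (R : ℍ[ℝ]ˣ →* Iso 3) (t : ZMod D × ZMod D) (F : Vec D → C(S 3, ℝ)) :
    mxL R t F = (6 : ℝ) • F + ∑ a : Fin 6, mxg R t a F := by
  unfold mxL
  rw [LinearMap.add_apply, LinearMap.smul_apply, LinearMap.id_apply, LinearMap.sum_apply]

lemma mxL_adm {R : ℍ[ℝ]ˣ →* Iso 3} {t : ZMod D × ZMod D} {F : Vec D → C(S 3, ℝ)} (hF : AdmF F) :
    AdmF (mxL R t F) := by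
  rw [mxL_apply]
  exact mx_adm_add (mx_adm_smul _ hF) (mx_adm_sum _ _ fun a _ => mxg_adm a hF)

lemma mx_ip_sum_right {ι : Type} (s : Finset ι) (F : ι → Vec D → C(S 3, ℝ)) (G : Vec D → C(S 3, ℝ)) :
    ip G (∑ a ∈ s, F a) = ∑ a ∈ s, ip G (F a) := by
  rw [mx_ip_comm, mx_ip_sum]
  exact Finset.sum_congr rfl fun a _ => mx_ip_comm _ _

lemma mxL_sym {R : ℍ[ℝ]ˣ →* Iso 3} (hR : IsRot R) {t : ZMod D × ZMod D} (ht : Sq t)
    (h5 : Nat.Coprime D 5) (F G : Vec D → C(S 3, ℝ)) (hG : AdmF G) :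
    ip (mxL R t F) G = ip F (mxL R t G) := by
  rw [mxL_apply, mxL_apply, mx_ip_add, mx_ip_add_right, mx_ip_smul, mx_ip_smul_right, mx_ip_sum,
    mx_ip_sum_right]
  congr 1
  rw [← Equiv.sum_comp (Equiv.addRight (3 : Fin 6)) (fun a => ip F (mxg R t a G))]
  exact Finset.sum_congr rfl fun a _ => mxg_adj hR ht h5 a F G hG

lemma mxL_tot {R : ℍ[ℝ]ˣ →* Iso 3} {t : ZMod D × ZMod D} (ht : Sq t)
    (h5 : Nat.Coprime D 5) (F : Vec D → C(S 3, ℝ)) : tot (mxL R t F) = 12 * tot F := by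
  have h : ∀ s : Finset (Fin 6), tot (∑ a ∈ s, mxg R t a F) = s.card * tot F := by
    intro s
    classical
    induction s using Finset.induction_on with
    | empty =>
      have : (0 : Vec D → C(S 3, ℝ)) = (0 : ℝ) • (0 : Vec D → C(S 3, ℝ)) := by simp
      rw [Finset.sum_empty, this, mx_tot_smul]
      simp
    | insert a s ha ih =>
      rw [Finset.sum_insert ha, mx_tot_add, ih, mxg_tot ht h5, Finset.card_insert_of_notMem ha]
      push_cast
      ring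
  rw [mxL_apply, mx_tot_add, mx_tot_smul, h, Finset.card_univ, Fintype.card_fin]
  push_cast
  ring

lemma mxL_nonneg {R : ℍ[ℝ]ˣ →* Iso 3} {t : ZMod D × ZMod D} (ht : Sq t)
    (h5 : Nat.Coprime D 5) (F : Vec D → C(S 3, ℝ)) : 0 ≤ ip (mxL R t F) F := by
  rw [mxL_apply, mx_ip_add, mx_ip_smul, mx_ip_sum]
  have h : ∀ a : Fin 6, -ip F F ≤ ip (mxg R t a F) F := by
    intro a
    have h1 := mx_cs (mxg R t a F) F
    rw [mxg_iso ht h5, Real.mul_self_sqrt (mx_ip_nonneg F)] at h1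
    exact (abs_le.1 h1).1
  have h2 := Finset.sum_le_sum (s := (Finset.univ : Finset (Fin 6))) fun a _ => h a
  rw [Finset.sum_const, Finset.card_univ, Fintype.card_fin, nsmul_eq_mul] at h2
  push_cast at h2
  linarith

end mixgate

/-! ### powers -/

section mixpow

variable {D : ℕ} [NeZero D] {R : ℍ[ℝ]ˣ →* Iso 3} {t : ZMod D × ZMod D}

lemma mx_step (hR : IsRot R) (ht : Sq t) (h5 : Nat.Coprime D 5) {c : ℝ} (hc : 0 < c)
    (hgap : ∀ F : Vec D → C(S 3, ℝ), AdmF F → tot F = 0 → ip (mxL R t F) F ≤ c * ip F F)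
    {F : Vec D → C(S 3, ℝ)} (hF : AdmF F) (h0 : tot F = 0) :
    ip (mxL R t F) (mxL R t F) ≤ c ^ 2 * ip F F := by
  set K := mxL R t F with hK
  have hKadm : AdmF K := mxL_adm hF
  have hKtot : tot K = 0 := by rw [hK, mxL_tot ht h5, h0, mul_zero]
  have h1 := mxL_nonneg (R := R) ht h5 (F - c⁻¹ • K)
  have h2 := hgap K hKadm hKtot
  have h3 := hgap F hF h0
  rw [map_sub, map_smul, mx_ip_sub, mx_ip_sub_right, mx_ip_sub_right, mx_ip_smul, mx_ip_smul,
    mx_ip_smul_right, mx_ip_smul_right, ← hK, mxL_sym hR ht h5 K F hF, ← hK] at h1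
  -- h1 : 0 ≤ ip K F - c⁻¹ * ip K K - (c⁻¹ * ip K K - c⁻¹ * (c⁻¹ * ip (L K) K))
  have hci : 0 < c⁻¹ := inv_pos.2 hc
  have h4 : c⁻¹ * (c⁻¹ * ip (mxL R t K) K) ≤ c⁻¹ * ip K K := by
    refine mul_le_mul_of_nonneg_left ?_ hci.le
    calc c⁻¹ * ip (mxL R t K) K ≤ c⁻¹ * (c * ip K K) := mul_le_mul_of_nonneg_left h2 hci.le
      _ = ip K K := by rw [← mul_assoc, inv_mul_cancel₀ hc.ne', one_mul]
  have h5' : c⁻¹ * ip K K ≤ ip K F := by linarith
  have h6 : ip K K ≤ c * ip K F := by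
    calc ip K K = c * (c⁻¹ * ip K K) := by rw [← mul_assoc, mul_inv_cancel₀ hc.ne', one_mul]
      _ ≤ c * ip K F := mul_le_mul_of_nonneg_left h5' hc.le
  calc ip K K ≤ c * ip K F := h6
    _ ≤ c * (c * ip F F) := mul_le_mul_of_nonneg_left h3 hc.le
    _ = c ^ 2 * ip F F := by ring

lemma mx_pow (hR : IsRot R) (ht : Sq t) (h5 : Nat.Coprime D 5) {c : ℝ} (hc : 0 < c)
    (hgap : ∀ F : Vec D → C(S 3, ℝ), AdmF F → tot F = 0 → ip (mxL R t F) F ≤ c * ip F F)
    {F : Vec D → C(S 3, ℝ)} (hF : AdmF F) (h0 : tot F = 0) (i : ℕ) :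
    AdmF ((mxL R t ^ i) F) ∧ tot ((mxL R t ^ i) F) = 0 ∧
      Real.sqrt (ip ((mxL R t ^ i) F) ((mxL R t ^ i) F)) ≤ c ^ i * Real.sqrt (ip F F) := by
  induction i with
  | zero => exact ⟨by simpa using hF, by simpa using h0, by simp⟩
  | succ i ih =>
    obtain ⟨h1, h2, h3⟩ := ih
    rw [pow_succ', Module.End.mul_apply]
    refine ⟨mxL_adm h1, by rw [mxL_tot ht h5, h2, mul_zero], ?_⟩
    have h4 := mx_step hR ht h5 hc hgap h1 h2
    calc Real.sqrt (ip (mxL R t ((mxL R t ^ i) F)) (mxL R t ((mxL R t ^ i) F)))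
        ≤ Real.sqrt (c ^ 2 * ip ((mxL R t ^ i) F) ((mxL R t ^ i) F)) := Real.sqrt_le_sqrt h4
      _ = c * Real.sqrt (ip ((mxL R t ^ i) F) ((mxL R t ^ i) F)) := by
          rw [Real.sqrt_mul (by positivity), Real.sqrt_sq hc.le]
      _ ≤ c * (c ^ i * Real.sqrt (ip F F)) := mul_le_mul_of_nonneg_left h3 hc.le
      _ = c ^ (i + 1) * Real.sqrt (ip F F) := by ring

open Classical in
/-- the constant family on unimodular vectors -/
noncomputable def mxU (D : ℕ) : Vec D → C(S 3, ℝ) := fun v => if Uni v then 1 else 0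

lemma mx_uni_smul (c : (ZMod D)ˣ) (v : Vec D) : Uni ((c : ZMod D) • v) ↔ Uni v := by
  constructor
  · rintro ⟨α, β, h⟩
    refine ⟨α * c, β * c, ?_⟩
    simp only [Pi.smul_apply, smul_eq_mul] at h
    linear_combination h
  · rintro ⟨α, β, h⟩
    refine ⟨α * ((c⁻¹ : (ZMod D)ˣ) : ZMod D), β * ((c⁻¹ : (ZMod D)ˣ) : ZMod D), ?_⟩
    simp only [Pi.smul_apply, smul_eq_mul]
    have h1 : ((c⁻¹ : (ZMod D)ˣ) : ZMod D) * (c : ZMod D) = 1 := Units.inv_mul _
    linear_combination (α * v 0 + β * v 1) * h1 + h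

lemma mxU_adm : AdmF (mxU D) where
  supp := by
    intro v hv
    unfold mxU
    rw [if_neg hv]
  inv := by
    intro c v
    unfold mxU
    rw [mx_uni_smul]

lemma mxU_gate (ht : Sq t) (h5 : Nat.Coprime D 5) (a : Fin 6) : mxg R t a (mxU D) = mxU D := by
  funext v
  rw [mxg_apply]
  unfold mxU
  rw [mx_uni ht h5]
  split_ifs <;> rfl

lemma mxU_L (ht : Sq t) (h5 : Nat.Coprime D 5) : mxL R t (mxU D) = (12 : ℝ) • mxU D := by
  rw [mxL_apply, Finset.sum_congr rfl fun a _ => mxU_gate ht h5 a, Finset.sum_const, Finset.card_univ,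
    Fintype.card_fin, ← Nat.cast_smul_eq_nsmul ℝ, ← add_smul]
  norm_num

lemma mxU_pow (ht : Sq t) (h5 : Nat.Coprime D 5) (i : ℕ) :
    (mxL R t ^ i) (mxU D) = (12 : ℝ) ^ i • mxU D := by
  induction i with
  | zero => simp
  | succ i ih => rw [pow_succ', Module.End.mul_apply, ih, map_smul, mxU_L ht h5, smul_smul, pow_succ]

lemma mx_ip_U {G : Vec D → C(S 3, ℝ)} (hG : AdmF G) : ip (mxU D) G = tot G := by
  rw [mx_ip, mx_tot]
  refine Finset.sum_congr rfl fun v _ => ?_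
  unfold mxU
  by_cases h : Uni v
  · rw [if_pos h, one_mul]
  · rw [if_neg h, hG.supp v h, mul_zero]

end mixpow

section mixword

variable {D : ℕ} [NeZero D] {R : ℍ[ℝ]ˣ →* Iso 3} {t : ZMod D × ZMod D}

lemma mx_qw (w : List (Fin 6)) (a : Fin 6) : qw (w ++ [a]) = al a * qw w := by
  induction w with
  | nil => simp [qw]
  | cons b w ih => rw [List.cons_append, qw, qw, ih, mul_assoc]

lemma mx_uw (w : List (Fin 6)) (a : Fin 6) : uw (w ++ [a]) = ua a * uw w := by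
  induction w with
  | nil => simp [uw]
  | cons b w ih => rw [List.cons_append, uw, uw, ih, mul_assoc]

lemma mx_actw (ht : Sq t) (w : List (Fin 6)) (a : Fin 6) (F : Vec D → C(S 3, ℝ)) :
    actw R t w (mxg R t a F) = actw R t (w ++ [a]) F := by
  funext v
  unfold actw
  rw [mxg_apply, mx_qw, mx_uw, mx_Ph_mul ht, ← Matrix.mulVec_mulVec]
  ext x
  show F _ (rot (R (ua a)) (rot (R (uw w)) x)) = F _ (rot (R (ua a * uw w)) x)
  rw [map_mul, rot_mul]

lemma mx_actw_nil (F : Vec D → C(S 3, ℝ)) : actw R t [] F = F := by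
  funext v
  unfold actw
  rw [qw, mx_Ph_one, Matrix.one_mulVec]
  ext x
  show F v (rot (R 1) x) = F v x
  rw [map_one, rot_one]

lemma mx_words (ht : Sq t) {c : ℝ} (G : Vec D → C(S 3, ℝ)) (i : ℕ) :
    ∀ F : Vec D → C(S 3, ℝ), (∀ w : List (Fin 6), w.length ≤ i → ip (actw R t w F) G < c) →
      ip ((mxL R t ^ i) F) G < 12 ^ i * c := by
  induction i with
  | zero =>
    intro F h
    have := h [] (le_refl _)
    rw [mx_actw_nil] at this
    simpa using this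
  | succ i ih =>
    intro F h
    rw [pow_succ, Module.End.mul_apply, mxL_apply, map_add, map_smul, map_sum, mx_ip_add, mx_ip_smul,
      mx_ip_sum]
    have h1 := ih F fun w hw => h w (by omega)
    have h2 : ∀ a : Fin 6, ip ((mxL R t ^ i) (mxg R t a F)) G < 12 ^ i * c := fun a =>
      ih _ fun w hw => by
        rw [mx_actw ht]
        exact h _ (by simp; omega)
    have h3 := Finset.sum_lt_sum_of_nonempty (s := (Finset.univ : Finset (Fin 6)))
      Finset.univ_nonempty fun a _ => h2 a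
    rw [Finset.sum_const, Finset.card_univ, Fintype.card_fin, nsmul_eq_mul] at h3
    push_cast at h3
    rw [pow_succ]
    linarith

end mixword

lemma mx_NU (D : ℕ) [NeZero D] : ip (mxU D) (mxU D) = (NU D : ℝ) := by
  rw [mx_ip_U mxU_adm, mx_tot]
  unfold NU mxU
  rw [Finset.card_filter]
  push_cast
  refine Finset.sum_congr rfl fun v _ => ?_
  split_ifs
  · have : (1 : C(S 3, ℝ)) = ContinuousMap.const _ 1 := rfl
    rw [this, II_const]
  · exact map_zero _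

lemma mx_NU_pos (D : ℕ) [NeZero D] : (0 : ℝ) < (NU D : ℝ) := by
  classical
  have : 0 < NU D := by
    unfold NU
    rw [Finset.card_pos]
    have h : Uni (![1, 0] : Vec D) := ⟨1, 0, by simp⟩
    exact ⟨![1, 0], Finset.mem_filter.2 ⟨Finset.mem_univ _, h⟩⟩
  exact_mod_cast this

/-- TARGET -/
theorem mixing (R : ℍ[ℝ]ˣ →* Iso 3) (hR : IsRot R) : ∃ l₁ : ℝ, 0 ≤ l₁ ∧ l₁ < 6 ∧
    ∀ (D : ℕ) [NeZero D], Odd D → Nat.Coprime D 5 → ∀ t : ZMod D × ZMod D, Sq t →
    ∀ F G : Vec D → C(S 3, ℝ), AdmF F → AdmF G → ∀ i : ℕ,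
    (6 + l₁) ^ i * (Real.sqrt (ip F F) * Real.sqrt (ip G G)) ≤
      1 / 2 * 12 ^ i * (tot F * tot G / NU D) →
    ∃ w : List (Fin 6), w.length ≤ i ∧
      1 / 2 * (tot F * tot G / NU D) ≤ ip (actw R t w F) G := by
  obtain ⟨l₁, h0, h6, hgap⟩ := gap_unif R hR
  refine ⟨l₁, h0, h6, ?_⟩
  intro D _ hodd h5 t ht F G hF hG i hi
  by_contra hcon
  push Not at hcon
  have h1 := mx_words ht G i F hcon
  have hN := mx_NU_pos D
  set c := tot F / NU D with hc
  set F₀ := F - c • mxU D with hF₀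
  have htU : tot (mxU D) = NU D := by rw [← mx_NU D, mx_ip_U mxU_adm]
  have e0 : F₀ = F + (-c) • mxU D := by rw [hF₀, neg_smul, sub_eq_add_neg]
  have hadm : AdmF F₀ := by
    rw [e0]
    exact mx_adm_add hF (mx_adm_smul _ mxU_adm)
  have htot : tot F₀ = 0 := by
    rw [e0, mx_tot_add, mx_tot_smul, htU, hc]
    field_simp
    ring
  have hgap' : ∀ F : Vec D → C(S 3, ℝ), AdmF F → tot F = 0 → ip (mxL R t F) F ≤ (6 + l₁) * ip F F := by
    intro F hF hF0
    have := hgap D hodd h5 t ht F hF hF0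
    rw [mxL_apply, mx_ip_add, mx_ip_smul, ← mx_TF]
    linarith
  obtain ⟨-, -, h2⟩ := mx_pow hR ht h5 (c := 6 + l₁) (by linarith) hgap' hadm htot i
  have h3 : ip F₀ F₀ ≤ ip F F := by
    have e1 : ip F (mxU D) = tot F := by rw [mx_ip_comm, mx_ip_U hF]
    rw [hF₀, mx_ip_sub, mx_ip_sub_right, mx_ip_sub_right, mx_ip_smul, mx_ip_smul, mx_ip_smul_right,
      mx_ip_smul_right, mx_NU, mx_ip_U hF, e1]
    have e2 : c * NU D = tot F := by
      rw [hc]
      field_simp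
    have e3 : c * (c * NU D) = c * tot F := by rw [e2]
    have e4 : 0 ≤ c * tot F := by
      rw [hc, div_mul_eq_mul_div]
      exact div_nonneg (mul_self_nonneg _) hN.le
    rw [e3]
    linarith
  have e5 : F = F₀ + c • mxU D := by rw [hF₀, sub_add_cancel]
  have h4 : ip ((mxL R t ^ i) F) G = ip ((mxL R t ^ i) F₀) G + 12 ^ i * (tot F * tot G / NU D) := by
    conv_lhs => rw [e5]
    rw [map_add, map_smul, mxU_pow ht h5, mx_ip_add, mx_ip_smul, mx_ip_smul, mx_ip_U hG, hc]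
    ring
  have h7 := mx_cs ((mxL R t ^ i) F₀) G
  have h8 : Real.sqrt (ip ((mxL R t ^ i) F₀) ((mxL R t ^ i) F₀)) * Real.sqrt (ip G G) ≤
      (6 + l₁) ^ i * (Real.sqrt (ip F F) * Real.sqrt (ip G G)) := by
    rw [← mul_assoc]
    refine mul_le_mul_of_nonneg_right ?_ (Real.sqrt_nonneg _)
    exact h2.trans (mul_le_mul_of_nonneg_left (Real.sqrt_le_sqrt h3) (by positivity))
  have h9 := (abs_le.1 (h7.trans h8)).1
  rw [h4] at h1
  nlinarith

end Pool.Agent.H978V.Q
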