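import Pool.Agent.H978V.Defs2
import Pool.Agent.H978V.R1
import Pool.Agent.H978V.R3

/-!
# The gates on the product of the two-sphere and the vectors modulo `e`, for a general splitting of the quaternions modulo `e`

The definitions of `H978V/Defs.lean`, `Defs2.lean` with a pair `(r, s)`, `r² + s² = -1`, in place of a square root of `-1`.
-/

set_option autoImplicit false

open MeasureTheory Set
open scoped Quaternion

namespace Pool.Agent.H978V.Q

open Pool.Agent.H978V Pool.Agent.Helper557.Rz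

/-- a pair `(r, s)` with `r² + s² = -1` -/
def Sq {e : ℕ} (t : ZMod e × ZMod e) : Prop := t.1 * t.1 + t.2 * t.2 = -1

/-- the matrix of an integral quaternion modulo `e` -/
def Ph {e : ℕ} (t : ZMod e × ZMod e) (x : ℍ[ℤ]) : Matrix (Fin 2) (Fin 2) (ZMod e) := Pg t.1 t.2 x

/-- reduction of pairs -/
def cst {e c : ℕ} (h : c ∣ e) (t : ZMod e × ZMod e) : ZMod c × ZMod c :=
  (ZMod.castHom h (ZMod c) t.1, ZMod.castHom h (ZMod c) t.2)

/-- the action of the six gates on families, `R` the homomorphism to rotations -/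
noncomputable def TF {e : ℕ} (R : ℍ[ℝ]ˣ →* Iso 3) (t : ZMod e × ZMod e) (F : Vec e → C(S 3, ℝ)) :
    Vec e → C(S 3, ℝ) :=
  fun u => ∑ a : Fin 6, cr (R (ua a)) (F ((Ph t (al a)).mulVec u))

/-- the action of a word on families -/
noncomputable def actw {e : ℕ} (R : ℍ[ℝ]ˣ →* Iso 3) (t : ZMod e × ZMod e) (w : List (Fin 6))
    (F : Vec e → C(S 3, ℝ)) : Vec e → C(S 3, ℝ) :=
  fun u => cr (R (uw w)) (F ((Ph t (qw w)).mulVec u))

theorem Ph_mul {e : ℕ} {t : ZMod e × ZMod e} (ht : Sq t) (x y : ℍ[ℤ]) : Ph t (x * y) = Ph t x * Ph t y :=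
  Pg_mul ht x y

theorem Ph_int {e : ℕ} (t : ZMod e × ZMod e) (c : ℤ) :
    Ph t ((c : ℤ) : ℍ[ℤ]) = (c : ZMod e) • (1 : Matrix (Fin 2) (Fin 2) (ZMod e)) :=
  Pg_int t.1 t.2 c

theorem Ph_zero {e : ℕ} (he : Odd e) {t : ZMod e × ZMod e} (ht : Sq t) (x : ℍ[ℤ]) :
    Ph t x = 0 ↔ DvdQ e x :=
  Pg_zero he ht x

theorem Ph_det {e : ℕ} {t : ZMod e × ZMod e} (ht : Sq t) (x : ℍ[ℤ]) :
    (Ph t x).det = ((Quaternion.normSq x : ℤ) : ZMod e) :=
  Pg_det ht x

theorem cst_sq {e c : ℕ} (h : c ∣ e) {t : ZMod e × ZMod e} (ht : Sq t) : Sq (cst h t) := by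
  unfold Sq at ht ⊢
  show ZMod.castHom h (ZMod c) t.1 * ZMod.castHom h (ZMod c) t.1 +
    ZMod.castHom h (ZMod c) t.2 * ZMod.castHom h (ZMod c) t.2 = -1
  rw [← map_mul, ← map_mul, ← map_add, ht, map_neg, map_one]

end Pool.Agent.H978V.Q
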